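import Pool.Agent.H381R3.LPDMain

/-!
The combinatorial part of the construction of a Scheepers set with a non-Menger square when
`cov(M) = 𝔡` is regular: gaps, and the greedy placement of gaps.
-/

set_option autoImplicit false

namespace Pool.Agent.Helper467_Sch

open Set Filter Cardinal Pool.Agent.H752R3 Pool.Agent.H381R3.LP

/-- Nondecreasing functions above the identity. -/
def Nice (ε : ℕ → ℕ) : Prop := Monotone ε ∧ ∀ n, n < ε n

/-- The point `z` vanishes on the interval `[r, ε r)`. -/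
def Gap (ε : ℕ → ℕ) (z : ℕ → Bool) (r : ℕ) : Prop := ∀ t, r ≤ t → t < ε r → z t = false

/-- The point `z` has a gap which starts between `n` and the `2 n`-th iterate of `ε` at `n`. -/
def Acc (ε : ℕ → ℕ) (z : ℕ → Bool) (n : ℕ) : Prop := ∃ r, n ≤ r ∧ r ≤ ε^[2 * n] n ∧ Gap ε z r

/-- The agreement of two points: the value at `t` is `true` iff the two points agree at `t`. -/
def ag (x y : ℕ → Bool) : ℕ → Bool := fun t => xor (!(x t)) (y t)

theorem ag_eq_true {x y : ℕ → Bool} {t : ℕ} : ag x y t = true ↔ x t = y t := by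
  simp only [ag]; cases x t <;> cases y t <;> simp

theorem ag_comm (x y : ℕ → Bool) : ag x y = ag y x := by
  ext t; simp only [ag]; cases x t <;> cases y t <;> rfl

theorem ag_ag (x y : ℕ → Bool) : ag x (ag x y) = y := by
  ext t; simp only [ag]; cases x t <;> cases y t <;> rfl

theorem Nice.iterate_mono {ε : ℕ → ℕ} (h : Nice ε) {i j : ℕ} (hij : i ≤ j) (n : ℕ) :
    ε^[i] n ≤ ε^[j] n := by
  induction j, hij using Nat.le_induction with
  | base => exact le_rfl
  | succ j _ ih =>
    rw [Function.iterate_succ_apply']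
    exact ih.trans (h.2 _).le

theorem Nice.le_iterate {ε : ℕ → ℕ} (h : Nice ε) (i n : ℕ) : n ≤ ε^[i] n := by
  have := h.iterate_mono (Nat.zero_le i) n
  simpa using this

/-- **Greedy placement of gaps.** -/
theorem greedy {ι : Type*} (ε : ι → ℕ → ℕ) (hε : ∀ i, Nice (ε i)) (c : ℕ → Bool) (k : ℕ) :
    ∀ (E : Finset ι), E.card = k → ∀ (D : ℕ) (z0 : ℕ → Bool), ∃ x : ℕ → Bool,
      (∀ t < D, x t = z0 t) ∧ ∀ i ∈ E,
      (∃ r, D ≤ r ∧ r ≤ (ε i)^[2 * k] D ∧ Gap (ε i) x r) ∧
      (∃ r, D ≤ r ∧ r ≤ (ε i)^[2 * k] D ∧ Gap (ε i) (ag x c) r) := by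
  classical
  induction k with
  | zero =>
    intro E hE D z0
    rw [Finset.card_eq_zero] at hE
    subst hE
    exact ⟨z0, fun _ _ => rfl, fun i hi => absurd hi (Finset.notMem_empty i)⟩
  | succ k ih =>
    intro E hE D z0
    have hne : E.Nonempty := by
      rw [← Finset.card_pos]; omega
    obtain ⟨i0, hi0, hmin⟩ := Finset.exists_min_image E (fun i => ε i (ε i D)) hne
    have hcard : (E.erase i0).card = k := by
      rw [Finset.card_erase_of_mem hi0]; omega
    set D1 := ε i0 D with hD1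
    set D2 := ε i0 D1 with hD2
    have h1 : D < D1 := (hε i0).2 D
    have h2 : D1 < D2 := (hε i0).2 D1
    let z1 : ℕ → Bool := fun t => if t < D then z0 t else if t < D1 then false else !(c t)
    obtain ⟨x, hx1, hx2⟩ := ih (E.erase i0) hcard D2 z1
    refine ⟨x, fun t ht => ?_, fun i hi => ?_⟩
    · rw [hx1 t (by omega)]
      simp [z1, ht]
    · by_cases hii : i = i0
      · subst hii
        refine ⟨⟨D, le_rfl, (hε i).le_iterate _ _, fun t ht1 ht2 => ?_⟩,
          ⟨D1, h1.le, ?_, fun t ht1 ht2 => ?_⟩⟩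
        · rw [hx1 t (by omega)]
          have h3 : ¬ t < D := by omega
          have h4 : t < D1 := ht2
          simp [z1, h3, h4]
        · have := (hε i).iterate_mono (show 1 ≤ 2 * (k + 1) by omega) D
          simpa using this
        · have h3 : x t = !(c t) := by
            rw [hx1 t (by omega)]
            have h3 : ¬ t < D := by omega
            have h4 : ¬ t < D1 := by omega
            simp [z1, h3, h4]
          simp only [ag, h3]
          cases c t <;> rfl
      · have hi' : i ∈ E.erase i0 := Finset.mem_erase.2 ⟨hii, hi⟩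
        have hD : D2 ≤ ε i (ε i D) := hmin i hi
        have hit : (ε i)^[2 * k] D2 ≤ (ε i)^[2 * (k + 1)] D := by
          have : (ε i)^[2 * (k + 1)] D = (ε i)^[2 * k] (ε i (ε i D)) := by
            rw [show 2 * (k + 1) = 2 * k + 1 + 1 by ring, Function.iterate_succ_apply,
              Function.iterate_succ_apply]
          rw [this]
          exact (hε i).1.iterate _ hD
        obtain ⟨⟨r, hr1, hr2, hr3⟩, ⟨r', hr1', hr2', hr3'⟩⟩ := hx2 i hi'
        exact ⟨⟨r, by omega, hr2.trans hit, hr3⟩, ⟨r', by omega, hr2'.trans hit, hr3'⟩⟩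

/-- A set of points is dense if all initial segments can be extended to members. -/
theorem dense_of_extend {O : Set (ℕ → Bool)}
    (h : ∀ (L : ℕ) (z : ℕ → Bool), ∃ x ∈ O, ∀ t < L, x t = z t) : Dense O := by
  rw [dense_iff_inter_open]
  rintro U hU ⟨z, hz⟩
  rw [isOpen_pi_iff] at hU
  obtain ⟨I, u, hu, hsub⟩ := hU z hz
  obtain ⟨x, hx, hxz⟩ := h (I.sup id + 1) z
  refine ⟨x, hsub ?_, hx⟩
  intro i hi
  have hiL : i < I.sup id + 1 := Nat.lt_succ_of_le (Finset.le_sup (f := id) hi)
  rw [hxz i hiL]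
  exact (hu i hi).2

theorem isOpen_of_depends {O : Set (ℕ → Bool)}
    (h : ∀ x ∈ O, ∃ L : ℕ, ∀ y : ℕ → Bool, (∀ t < L, y t = x t) → y ∈ O) : IsOpen O := by
  rw [isOpen_iff_forall_mem_open]
  intro x hx
  obtain ⟨L, hL⟩ := h x hx
  exact ⟨{y | ∀ t < L, y t = x t}, fun y hy => hL y hy, isOpen_agree x L, fun t _ => rfl⟩

theorem acc_depends {ε : ℕ → ℕ} {z : ℕ → Bool} {n : ℕ} (h : Acc ε z n) :
    ∃ L : ℕ, ∀ y : ℕ → Bool, (∀ t < L, y t = z t) → Acc ε y n := by
  obtain ⟨r, h1, h2, h3⟩ := h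
  refine ⟨ε r, fun y hy => ⟨r, h1, h2, fun t ht1 ht2 => ?_⟩⟩
  rw [hy t ht2]
  exact h3 t ht1 ht2

end Pool.Agent.Helper467_Sch
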