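import Pool.Agent.Helper467_Sch.Top

/-!
The square is not Menger; transfer to the real line.
-/

set_option autoImplicit false

namespace Pool.Agent.Helper467_Sch

open Set Filter Cardinal Pool.Agent.H752R3 Pool.Agent.H381R3.LP

theorem continuous_ag : Continuous fun p : (ℕ → Bool) × (ℕ → Bool) => ag p.1 p.2 := by
  apply continuous_pi
  intro n
  have h : Continuous fun q : Bool × Bool => xor (!q.1) q.2 := continuous_of_discreteTopology
  exact h.comp (((continuous_apply n : Continuous fun x : ℕ → Bool => x n).comp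
    continuous_fst).prodMk
    ((continuous_apply n : Continuous fun x : ℕ → Bool => x n).comp continuous_snd))

/-- Any two points of the set agree infinitely often. -/
theorem not_finSupp_ag {κ : Cardinal.{0}} {e : KO κ → ℕ → ℕ} {s : KO κ → St}
    (hs : ∀ β, Cond e β s (s β)) {z w : ℕ → Bool} (hz : z ∈ XX e s) (hw : w ∈ XX e s) :
    ¬ FinSupp (ag z w) := by
  -- agreement only depends on the tails
  have htail : ∀ z w w' : ℕ → Bool, (∃ k, ∀ m, k ≤ m → w m = w' m) → ¬ FinSupp (ag z w) →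
      ¬ FinSupp (ag z w') := by
    rintro z w w' ⟨k, hk⟩ h ⟨l, hl⟩
    apply h
    refine ⟨max k l, fun m hm => ?_⟩
    have := hl m ((le_max_right _ _).trans hm)
    simp only [ag] at this ⊢
    rw [hk m ((le_max_left _ _).trans hm)]
    exact this
  have hself : ∀ z : ℕ → Bool, ¬ FinSupp (ag z z) := by
    intro z
    rw [not_finSupp_iff]
    intro k
    exact ⟨k, le_rfl, ag_eq_true.2 rfl⟩
  have hzero : ∀ z w : ℕ → Bool, FinSupp w → ¬ FinSupp (ag z fun _ => false) →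
      ¬ FinSupp (ag z w) := by
    rintro z w ⟨k, hk⟩ h
    exact htail z _ w ⟨k, fun m hm => (hk m hm).symm⟩ h
  have hz0 : ∀ z ∈ XX e s, ¬ FinSupp (ag z fun _ => false) := by
    rintro z (hz | ⟨β, rfl⟩ | ⟨β, rfl⟩)
    · rw [ag_comm]
      exact hzero _ _ hz (hself _)
    · exact (hs β).fin1
    · exact (hs β).fin2
  -- two points of stages
  have key : ∀ α β : KO κ, α < β → ∀ z w : ℕ → Bool, (z = (s α).2 ∨ z = tw e s α) →
      (w = (s β).2 ∨ w = tw e s β) → ¬ FinSupp (ag z w) := by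
    rintro α β h z w (rfl | rfl) (rfl | rfl)
    · rw [ag_comm]; exact (hs β).old1 α h
    · rw [ag_comm]; exact (hs β).old3 α h
    · rw [ag_comm]; exact (hs β).old2 α h
    · rw [ag_comm]; exact (hs β).old4 α h
  have hsame : ∀ α : KO κ, ∀ z w : ℕ → Bool, (z = (s α).2 ∨ z = tw e s α) →
      (w = (s α).2 ∨ w = tw e s α) → ¬ FinSupp (ag z w) := by
    rintro α z w (rfl | rfl) (rfl | rfl)
    · exact hself _
    · rw [tw, ag_ag]; exact not_finSupp_chi _
    · rw [ag_comm, tw, ag_ag]; exact not_finSupp_chi _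
    · exact hself _
  rcases hw with hw | hw
  · exact hzero z w hw (hz0 z hz)
  · rcases hz with hz | hz
    · rw [ag_comm]
      exact hzero w z hz (hz0 w (Or.inr hw))
    · obtain ⟨α, hα⟩ : ∃ α, z = (s α).2 ∨ z = tw e s α := by
        rcases hz with ⟨α, rfl⟩ | ⟨α, rfl⟩
        · exact ⟨α, Or.inl rfl⟩
        · exact ⟨α, Or.inr rfl⟩
      obtain ⟨β, hβ⟩ : ∃ β, w = (s β).2 ∨ w = tw e s β := by
        rcases hw with ⟨α, rfl⟩ | ⟨α, rfl⟩
        · exact ⟨α, Or.inl rfl⟩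
        · exact ⟨α, Or.inr rfl⟩
      rcases lt_trichotomy α β with h | h | h
      · exact key α β h z w hα hβ
      · subst h; exact hsame α z w hα hβ
      · rw [ag_comm]; exact key β α h w z hβ hα

/-- **The square is not Menger.** -/
theorem not_isMenger_square {κ : Cardinal.{0}} {e : KO κ → ℕ → ℕ} {s : KO κ → St}
    (hdom : ∀ g : ℕ → ℕ, ∃ a, ∀ n, g n ≤ e a n) (hs : ∀ β, Cond e β s (s β)) :
    ¬ IsMenger (XX e s ×ˢ XX e s) := by
  intro hM
  let V : ℕ → ℕ → Set ((ℕ → Bool) × (ℕ → Bool)) := fun n k => {z | n < cnt k (ag z.1 z.2)}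
  have hVo : ∀ n k, IsOpen (V n k) := by
    intro n k
    have hc : Continuous fun z : (ℕ → Bool) × (ℕ → Bool) => cnt k (ag z.1 z.2) :=
      (continuous_cnt k).comp continuous_ag
    exact (isOpen_discrete (Set.Ioi n)).preimage hc
  obtain ⟨F, hF1, hF2⟩ := hM (fun n => range (V n)) (by
    intro n
    refine ⟨?_, ?_⟩
    · rintro _ ⟨k, rfl⟩
      exact hVo n k
    · rintro ⟨z, w⟩ ⟨hz, hw⟩
      obtain ⟨k, hk⟩ := exists_lt_cnt_of_not_finSupp (not_finSupp_ag hs hz hw) n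
      exact ⟨_, ⟨k, rfl⟩, hk⟩)
  have hg : ∀ n, ∃ g, ∀ z ∈ ⋃₀ F n, n < cnt g (ag z.1 z.2) := by
    intro n
    obtain ⟨E, -, hE2, hE3⟩ : ∃ E ⊆ (Set.univ : Set ℕ), E.Finite ∧ V n '' E = F n := by
      have := Set.exists_subset_image_finite_and (f := V n) (s := Set.univ)
        (p := fun t => t = F n)
      obtain ⟨E', h1, h2, h3⟩ := this.1 ⟨F n, by rw [image_univ]; exact (hF1 n).1,
        (hF1 n).2, rfl⟩
      exact ⟨E', h1, h2, h3⟩
    obtain ⟨g, hg⟩ := hE2.bddAbove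
    refine ⟨g, ?_⟩
    rintro z ⟨u, hu, hz⟩
    rw [← hE3] at hu
    obtain ⟨k, hk, rfl⟩ := hu
    have h1 : n < cnt k (ag z.1 z.2) := hz
    exact lt_of_lt_of_le h1 (cnt_mono (hg hk) _)
  choose g hg using hg
  obtain ⟨a, ha⟩ := hdom g
  have hmem : ((s a).2, tw e s a) ∈ XX e s ×ˢ XX e s :=
    ⟨Or.inr (Or.inl ⟨a, rfl⟩), Or.inr (Or.inr ⟨a, rfl⟩)⟩
  obtain ⟨n, hn⟩ := mem_iUnion.1 (hF2 hmem)
  have h1 := hg n _ hn
  have h2 : ag (s a).2 (tw e s a) = chi (e a) := by rw [tw, ag_ag]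
  simp only [h2] at h1
  have h3 := le_psum (e a) (le_refl n)
  have h4 := ha n
  have h5 : cnt (g n) (chi (e a)) ≤ n := cnt_chi_le (by omega)
  omega

/-! ### Transfer to the real line -/

theorem exists_embedding : ∃ c : (ℕ → Bool) → ℝ, Continuous c ∧ Function.Injective c := by
  have h : ¬ (Set.univ : Set ℝ).Countable := by
    rw [Set.countable_univ_iff, ← Cardinal.mk_le_aleph0_iff, Cardinal.mk_real, not_le]
    exact Cardinal.aleph0_lt_continuum
  obtain ⟨f, -, hf1, hf2⟩ := isClosed_univ.exists_nat_bool_injection_of_not_countable h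
  exact ⟨f, hf1, hf2⟩

theorem IsMengerAlong.image {Y Z : Type} [TopologicalSpace Y] [TopologicalSpace Z] {p : Filter ℕ}
    {X : Set Y} (h : IsMengerAlong p X) {c : Y → Z} (hc : Continuous c) :
    IsMengerAlong p (c '' X) := by
  classical
  intro U hU
  obtain ⟨F, hF1, hF2⟩ := h (fun n => (fun u => c ⁻¹' u) '' U n) (by
    intro n
    refine ⟨?_, ?_⟩
    · rintro _ ⟨u, hu, rfl⟩
      exact ((hU n).1 u hu).preimage hc
    · intro x hx
      obtain ⟨u, hu, hxu⟩ := (hU n).2 ⟨x, hx, rfl⟩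
      exact ⟨_, ⟨u, hu, rfl⟩, hxu⟩)
  have h1 : ∀ n, ∃ E ⊆ U n, E.Finite ∧ (fun u => c ⁻¹' u) '' E = F n := by
    intro n
    have := Set.exists_subset_image_finite_and (f := fun u => c ⁻¹' u) (s := U n)
      (p := fun t => t = F n)
    obtain ⟨E', h1, h2, h3⟩ := this.1 ⟨F n, (hF1 n).1, (hF1 n).2, rfl⟩
    exact ⟨E', h1, h2, h3⟩
  choose E hE1 hE2 hE3 using h1
  refine ⟨E, fun n => ⟨hE1 n, hE2 n⟩, ?_⟩
  rintro _ ⟨x, hx, rfl⟩
  filter_upwards [hF2 x hx] with n hn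
  obtain ⟨v, hv, hxv⟩ := hn
  rw [← hE3 n] at hv
  obtain ⟨u, hu, rfl⟩ := hv
  exact ⟨u, hu, hxv⟩

theorem isMenger_of_image {Y Z : Type} [TopologicalSpace Y] [TopologicalSpace Z]
    {X : Set Y} {c : Y → Z} (hc : Topology.IsInducing c) (h : IsMenger (c '' X)) : IsMenger X := by
  classical
  intro U hU
  obtain ⟨F, hF1, hF2⟩ := h (fun n => {v | IsOpen v ∧ c ⁻¹' v ∈ U n}) (by
    intro n
    refine ⟨fun v hv => hv.1, ?_⟩
    rintro _ ⟨x, hx, rfl⟩
    obtain ⟨u, hu, hxu⟩ := (hU n).2 hx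
    obtain ⟨v, hv, rfl⟩ := hc.isOpen_iff.1 ((hU n).1 u hu)
    exact ⟨v, ⟨hv, hu⟩, hxu⟩)
  refine ⟨fun n => (fun v => c ⁻¹' v) '' F n, fun n => ⟨?_, (hF1 n).2.image _⟩, ?_⟩
  · rintro _ ⟨v, hv, rfl⟩
    exact ((hF1 n).1 hv).2
  · intro x hx
    obtain ⟨n, v, hv, hxv⟩ := mem_iUnion.1 (hF2 ⟨x, hx, rfl⟩)
    exact mem_iUnion.2 ⟨n, _, ⟨v, hv, rfl⟩, hxv⟩

/-- **The construction.** -/
theorem main {κ : Cardinal.{0}} (hr : κ.IsRegular) (h0 : ℵ₀ < κ) (hcov : CovK κ)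
    (e : KO κ → ℕ → ℕ) (he : ∀ a, Nice (e a)) (hdom : ∀ g : ℕ → ℕ, ∃ a, ∀ n, g n ≤ e a n) :
    ∃ (p : Ultrafilter ℕ) (X : Set ℝ), (p : Filter ℕ) ≤ cofinite ∧
      IsMengerAlong (p : Filter ℕ) X ∧ ¬ IsMenger (X ×ˢ X) := by
  obtain ⟨s, hs⟩ := exists_family h0 hcov e he
  have := PF_neBot hs
  obtain ⟨c, hc1, hc2⟩ := exists_embedding
  have hle : (Ultrafilter.of (PF e s) : Filter ℕ) ≤ PF e s := Ultrafilter.of_le _
  refine ⟨Ultrafilter.of (PF e s), c '' XX e s, hle.trans (PF_le_cofinite e s), ?_, ?_⟩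
  · apply IsMengerAlong.image _ hc1
    intro U hU
    obtain ⟨F, hF1, hF2⟩ := isMengerAlong_XX hr h0 he (s := s) hdom U hU
    exact ⟨F, hF1, fun x hx => (hF2 x hx).filter_mono hle⟩
  · intro h
    apply not_isMenger_square hdom hs
    have hemb : Topology.IsInducing (Prod.map c c) :=
      (hc1.isClosedEmbedding hc2).isInducing.prodMap (hc1.isClosedEmbedding hc2).isInducing
    apply isMenger_of_image hemb
    rwa [Set.prodMap_image_prod]

end Pool.Agent.Helper467_Sch
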