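import Pool.Agent.Helper467_Sch.Comb

/-!
The transfinite recursion for a Scheepers set with a non-Menger square when `cov(M) = 𝔡` is
regular.
-/

set_option autoImplicit false

namespace Pool.Agent.Helper467_Sch

open Set Filter Cardinal Pool.Agent.H752R3 Pool.Agent.H381R3.LP

/-- The data chosen at one stage: a growth function and a point of the Cantor space. -/
abbrev St : Type := (ℕ → ℕ) × (ℕ → Bool)

/-- The second point of the stage `β`: it agrees with the first one exactly on a sparse set. -/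
noncomputable def tw {K : Type} (e : K → ℕ → ℕ) (s : K → St) (β : K) : ℕ → Bool :=
  ag (s β).2 (chi (e β))

/-- The requirement `(β, γ)` is met at `n`. -/
def Met {K : Type} (e : K → ℕ → ℕ) (st : St) (β γ : K) (n : ℕ) : Prop :=
  e γ n ≤ st.1 n ∧ Acc (e γ) st.2 n ∧ Acc (e γ) (ag st.2 (chi (e β))) n

/-- The set of the `n` at which the finitely many requirements in `S` are met. -/
def Tr {K : Type} (e : K → ℕ → ℕ) (s : K → St) (S : Finset (K × K)) : Set ℕ :=
  {n | ∀ p ∈ S, Met e (s p.1) p.1 p.2 n}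

/-- The condition on the stage `β`. -/
structure Cond {K : Type} [LinearOrder K] (e : K → ℕ → ℕ) (β : K) (prev : K → St) (st : St) :
    Prop where
  met : ∀ S : Finset (K × K), (∀ p ∈ S, p.1 < β ∧ p.2 ≤ β) → (Tr e prev S).Infinite →
    ∀ F : Finset K, (∀ c ∈ F, c ≤ β) → {n | n ∈ Tr e prev S ∧ ∀ c ∈ F, Met e st β c n}.Infinite
  old1 : ∀ α < β, ¬ FinSupp (ag st.2 (prev α).2)
  old2 : ∀ α < β, ¬ FinSupp (ag st.2 (tw e prev α))
  old3 : ∀ α < β, ¬ FinSupp (ag (ag st.2 (chi (e β))) (prev α).2)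
  old4 : ∀ α < β, ¬ FinSupp (ag (ag st.2 (chi (e β))) (tw e prev α))
  fin1 : ¬ FinSupp (ag st.2 fun _ => false)
  fin2 : ¬ FinSupp (ag (ag st.2 (chi (e β))) fun _ => false)

/-- Fewer than `κ` infinite sets and functions: a single function is above each of the given
functions at infinitely many members of the corresponding set. -/
theorem exists_above_often {κ : Cardinal.{0}} (h0 : ℵ₀ < κ) (hcov : CovK κ) {ι : Type}
    (hι : #ι < κ) (B : ι → Set ℕ) (g : ι → ℕ → ℕ) :
    ∃ f : ℕ → ℕ, ∀ i, (B i).Infinite → {n | n ∈ B i ∧ g i n ≤ f n}.Infinite := by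
  classical
  let nx : ι → ℕ → ℕ := fun i m => if h : ∃ n, m ≤ n ∧ n ∈ B i then h.choose else 0
  obtain ⟨h, hh⟩ := exists_generic_fn h0 hcov hι fun i m => g i (nx i m)
  refine ⟨fun n => ∑ m ∈ Finset.range (n + 1), h m, fun i hi => ?_⟩
  apply Set.infinite_of_forall_exists_gt
  intro k
  obtain ⟨m, hkm, hm⟩ := hh i (k + 1)
  have hex : ∃ n, m ≤ n ∧ n ∈ B i := by
    obtain ⟨n, hn1, hn2⟩ := hi.exists_gt m
    exact ⟨n, hn2.le, hn1⟩
  have hnx : nx i m = hex.choose := dif_pos hex
  have h1 := hex.choose_spec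
  rw [← hnx] at h1
  refine ⟨nx i m, ⟨h1.2, ?_⟩, by omega⟩
  rw [← hm]
  exact Finset.single_le_sum (f := h) (fun _ _ => Nat.zero_le _)
    (Finset.mem_range.2 (by omega : m < nx i m + 1))

theorem not_finSupp_iff {z : ℕ → Bool} : ¬ FinSupp z ↔ ∀ k, ∃ m, k ≤ m ∧ z m = true := by
  unfold FinSupp
  push Not
  simp

theorem exists_stage {κ : Cardinal.{0}} (h0 : ℵ₀ < κ) (hcov : CovK κ)
    (e : KO κ → ℕ → ℕ) (he : ∀ a, Nice (e a)) (β : KO κ) (prev : KO κ → St) :
    ∃ st : St, Cond e β prev st := by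
  classical
  -- the finite sets of requirements
  let T1 : Type := {S : Finset (KO κ × KO κ) // ∀ p ∈ S, p ∈ Set.Iio β ×ˢ Set.Iic β}
  let T2 : Type := {F : Finset (KO κ) // ∀ c ∈ F, c ∈ Set.Iic β}
  have hc1 : #T1 < κ := by
    apply finset_sub_lt h0
    rw [Cardinal.mk_setProd]
    exact Cardinal.mul_lt_of_lt h0.le (mk_Iio_KO β) (mk_Iic_KO h0 β)
  have hc2 : #T2 < κ := finset_sub_lt h0 _ (mk_Iic_KO h0 β)
  have hc12 : #(T1 × T2) < κ := by
    rw [Cardinal.mk_prod, Cardinal.lift_id, Cardinal.lift_id]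
    exact Cardinal.mul_lt_of_lt h0.le hc1 hc2
  obtain ⟨f, hf⟩ := exists_above_often h0 hcov hc12 (fun q => Tr e prev q.1.1)
    (fun q n => ∑ c ∈ q.2.1, e c n)
  let B : T1 × T2 → Set ℕ := fun q => {n | n ∈ Tr e prev q.1.1 ∧ ∀ c ∈ q.2.1, e c n ≤ f n}
  have hB : ∀ q : T1 × T2, (Tr e prev q.1.1).Infinite → (B q).Infinite := by
    intro q hq
    refine (hf q hq).mono ?_
    rintro n ⟨h1, h2⟩
    refine ⟨h1, fun c hc => le_trans ?_ h2⟩
    exact Finset.single_le_sum (f := fun c => e c n) (fun _ _ => Nat.zero_le _) hc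
  -- the dense open sets
  let ι : Type := ((T1 × T2) × ℕ) ⊕ ((Option (Set.Iio β × Bool)) × Bool × ℕ)
  let pt : Option (Set.Iio β × Bool) → ℕ → Bool := fun o => match o with
    | none => fun _ => false
    | some (a, true) => (prev a.1).2
    | some (a, false) => tw e prev a.1
  let O : ι → Set (ℕ → Bool) := fun o => match o with
    | Sum.inl (q, m) => {x | (Tr e prev q.1.1).Infinite → ∃ n, m ≤ n ∧ n ∈ B q ∧
        ∀ c ∈ q.2.1, Acc (e c) x n ∧ Acc (e c) (ag x (chi (e β))) n}
    | Sum.inr (o, true, m) => {x | ∃ t, m ≤ t ∧ ag x (pt o) t = true}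
    | Sum.inr (o, false, m) => {x | ∃ t, m ≤ t ∧ ag (ag x (chi (e β))) (pt o) t = true}
  have hcard : #ι < κ := by
    have h1 : #(Option (Set.Iio β × Bool)) < κ := by
      rw [Cardinal.mk_option, Cardinal.mk_prod, Cardinal.lift_id, Cardinal.lift_id]
      refine Cardinal.add_lt_of_lt h0.le (Cardinal.mul_lt_of_lt h0.le (mk_Iio_KO β) ?_)
        (Cardinal.one_lt_aleph0.trans h0)
      exact (Cardinal.mk_lt_aleph0).trans h0
    rw [Cardinal.mk_sum, Cardinal.lift_id, Cardinal.lift_id]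
    refine Cardinal.add_lt_of_lt h0.le ?_ ?_
    · rw [Cardinal.mk_prod, Cardinal.lift_id, Cardinal.lift_id]
      exact Cardinal.mul_lt_of_lt h0.le hc12 (by simpa using h0)
    · rw [Cardinal.mk_prod, Cardinal.lift_id, Cardinal.lift_id]
      refine Cardinal.mul_lt_of_lt h0.le h1 ?_
      rw [Cardinal.mk_prod, Cardinal.lift_id, Cardinal.lift_id]
      exact Cardinal.mul_lt_of_lt h0.le ((Cardinal.mk_lt_aleph0).trans h0) (by simpa using h0)
  have hag : ∀ (x y w : ℕ → Bool) (t : ℕ), y t = x t → ag y w t = ag x w t := by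
    intro x y w t h; simp only [ag, h]
  have hOo : ∀ o, IsOpen (O o) := by
    intro o
    apply isOpen_of_depends
    intro x hx
    match o, hx with
    | Sum.inl (q, m), hx =>
      by_cases hT : (Tr e prev q.1.1).Infinite
      · obtain ⟨n, hn1, hn2, hn3⟩ := hx hT
        have h1 : ∀ c : KO κ, ∃ L : ℕ, c ∈ q.2.1 → ∀ y : ℕ → Bool, (∀ t < L, y t = x t) →
            Acc (e c) y n ∧ Acc (e c) (ag y (chi (e β))) n := by
          intro c
          by_cases hc : c ∈ q.2.1
          · obtain ⟨L1, hL1⟩ := acc_depends (hn3 c hc).1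
            obtain ⟨L2, hL2⟩ := acc_depends (hn3 c hc).2
            refine ⟨max L1 L2, fun _ y hy => ⟨hL1 y fun t ht => hy t (lt_max_of_lt_left ht),
              hL2 _ fun t ht => hag _ _ _ _ (hy t (lt_max_of_lt_right ht))⟩⟩
          · exact ⟨0, fun h => absurd h hc⟩
        choose L hL using h1
        refine ⟨q.2.1.sup L, fun y hy _ => ⟨n, hn1, hn2, fun c hc => ?_⟩⟩
        exact hL c hc y fun t ht => hy t (lt_of_lt_of_le ht (Finset.le_sup hc))
      · exact ⟨0, fun y _ h => absurd h hT⟩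
    | Sum.inr (o, true, m), hx =>
      obtain ⟨t, h1, h2⟩ := hx
      refine ⟨t + 1, fun y hy => ⟨t, h1, ?_⟩⟩
      rw [hag x y _ t (hy t (by omega))]
      exact h2
    | Sum.inr (o, false, m), hx =>
      obtain ⟨t, h1, h2⟩ := hx
      refine ⟨t + 1, fun y hy => ⟨t, h1, ?_⟩⟩
      rw [hag (ag x (chi (e β))) _ _ t (hag _ _ _ _ (hy t (by omega)))]
      exact h2
  have hOd : ∀ o, Dense (O o) := by
    intro o
    apply dense_of_extend
    intro L z
    match o with
    | Sum.inl (q, m) =>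
      by_cases hT : (Tr e prev q.1.1).Infinite
      · obtain ⟨n, hn1, hn2⟩ := (hB q hT).exists_gt (max (max m L) q.2.1.card)
        have hn3 : m ≤ n ∧ L ≤ n ∧ q.2.1.card ≤ n := by
          simp only [max_lt_iff] at hn2
          omega
        obtain ⟨x, hx1, hx2⟩ := greedy e he (chi (e β)) _ q.2.1 rfl n z
        refine ⟨x, fun _ => ⟨n, hn3.1, hn1, fun c hc => ?_⟩, fun t ht => hx1 t (by omega)⟩
        obtain ⟨⟨r, hr1, hr2, hr3⟩, ⟨r', hr1', hr2', hr3'⟩⟩ := hx2 c hc
        have hit : (e c)^[2 * q.2.1.card] n ≤ (e c)^[2 * n] n :=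
          (he c).iterate_mono (by omega) n
        exact ⟨⟨r, hr1, hr2.trans hit, hr3⟩, ⟨r', hr1', hr2'.trans hit, hr3'⟩⟩
      · exact ⟨z, fun h => absurd h hT, fun _ _ => rfl⟩
    | Sum.inr (o, true, m) =>
      refine ⟨fun t => if t < L then z t else pt o t, ⟨max m L, le_max_left _ _, ?_⟩,
        fun t ht => by simp [ht]⟩
      rw [ag_eq_true]
      have : ¬ (max m L < L) := by simp
      simp
    | Sum.inr (o, false, m) =>
      refine ⟨fun t => if t < L then z t else ag (pt o) (chi (e β)) t,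
        ⟨max m L, le_max_left _ _, ?_⟩, fun t ht => by simp [ht]⟩
      rw [ag_eq_true]
      have h1 : ¬ (max m L < L) := by simp
      simp only [ag, h1, if_false]
      cases pt o (max m L) <;> cases chi (e β) (max m L) <;> rfl
  have hne := hcov ι (fun o => (O o)ᶜ) hcard fun o =>
    isMeagre_compl_of_open_dense (hOo o) (hOd o)
  obtain ⟨x, hx⟩ := (ne_univ_iff_exists_notMem _).1 hne
  have hxO : ∀ o, x ∈ O o := by
    intro o
    by_contra hcon
    exact hx (mem_iUnion.2 ⟨o, hcon⟩)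
  have hpt1 : ∀ o, ¬ FinSupp (ag x (pt o)) := by
    intro o
    rw [not_finSupp_iff]
    intro k
    exact hxO (Sum.inr (o, true, k))
  have hpt2 : ∀ o, ¬ FinSupp (ag (ag x (chi (e β))) (pt o)) := by
    intro o
    rw [not_finSupp_iff]
    intro k
    exact hxO (Sum.inr (o, false, k))
  refine ⟨(f, x), ⟨?_, fun α hα => hpt1 (some (⟨α, hα⟩, true)),
    fun α hα => hpt1 (some (⟨α, hα⟩, false)), fun α hα => hpt2 (some (⟨α, hα⟩, true)),
    fun α hα => hpt2 (some (⟨α, hα⟩, false)), hpt1 none, hpt2 none⟩⟩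
  intro S hS hSi F hF
  apply Set.infinite_of_forall_exists_gt
  intro m
  obtain ⟨n, hn1, hn2, hn3⟩ := hxO (Sum.inl ((⟨S, hS⟩, ⟨F, hF⟩), m + 1)) hSi
  exact ⟨n, ⟨hn2.1, fun c hc => ⟨hn2.2 c hc, (hn3 c hc).1, (hn3 c hc).2⟩⟩, by omega⟩

/-- The family obtained by recursion. -/
theorem exists_family {κ : Cardinal.{0}} (h0 : ℵ₀ < κ) (hcov : CovK κ)
    (e : KO κ → ℕ → ℕ) (he : ∀ a, Nice (e a)) :
    ∃ s : KO κ → St, ∀ β, Cond e β s (s β) := by
  classical
  apply exists_transfinite (fun β prev st => Cond e β prev st)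
    (fun β prev => exists_stage h0 hcov e he β prev)
  intro β prev prev' st hpp h
  have htw : ∀ α < β, tw e prev' α = tw e prev α := by
    intro α hα
    simp only [tw, hpp α hα]
  have hT : ∀ S : Finset (KO κ × KO κ), (∀ p ∈ S, p.1 < β ∧ p.2 ≤ β) →
      Tr e prev' S = Tr e prev S := by
    intro S hS
    ext n
    constructor
    · intro h p hp
      have := h p hp
      rwa [← hpp p.1 (hS p hp).1] at this
    · intro h p hp
      have := h p hp
      rwa [hpp p.1 (hS p hp).1] at this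
  refine ⟨?_, ?_, ?_, ?_, ?_, h.fin1, h.fin2⟩
  · intro S hS hSi F hF
    rw [hT S hS] at hSi ⊢
    exact h.met S hS hSi F hF
  · intro α hα
    rw [← hpp α hα]
    exact h.old1 α hα
  · intro α hα
    rw [htw α hα]
    exact h.old2 α hα
  · intro α hα
    rw [← hpp α hα]
    exact h.old3 α hα
  · intro α hα
    rw [htw α hα]
    exact h.old4 α hα

theorem tr_infinite {κ : Cardinal.{0}} {e : KO κ → ℕ → ℕ} {s : KO κ → St}
    (hs : ∀ β, Cond e β s (s β))
    (S : Finset (KO κ × KO κ)) (hS : ∀ p ∈ S, p.2 ≤ p.1) : (Tr e s S).Infinite := by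
  classical
  have hempty : (Tr e s ∅).Infinite := by
    have : Tr e s ∅ = Set.univ := by
      rw [eq_univ_iff_forall]
      intro n p hp
      exact absurd hp (Finset.notMem_empty p)
    rw [this]
    exact Set.infinite_univ
  have key : ∀ β, ∀ S : Finset (KO κ × KO κ), (∀ p ∈ S, p.2 ≤ p.1) → (∀ p ∈ S, p.1 ≤ β) →
      (Tr e s S).Infinite := by
    intro β
    induction β using WellFoundedLT.induction with
    | ind β ih =>
      intro S hS hSβ
      have h1 : (Tr e s (S.filter fun p => p.1 < β)).Infinite := by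
        rcases (S.filter fun p => p.1 < β).eq_empty_or_nonempty with h | h
        · rw [h]; exact hempty
        · obtain ⟨p0, hp0, hmax⟩ := Finset.exists_max_image _ Prod.fst h
          exact ih p0.1 (Finset.mem_filter.1 hp0).2 _
            (fun p hp => hS p (Finset.mem_filter.1 hp).1) hmax
      refine ((hs β).met _ (fun p hp => ?_) h1 ((S.filter fun p => p.1 = β).image Prod.snd)
        (fun c hc => ?_)).mono ?_
      · have h2 := Finset.mem_filter.1 hp
        exact ⟨h2.2, (hS p h2.1).trans h2.2.le⟩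
      · obtain ⟨p, hp, rfl⟩ := Finset.mem_image.1 hc
        have h2 := Finset.mem_filter.1 hp
        exact (hS p h2.1).trans h2.2.le
      · rintro n ⟨hn1, hn2⟩ p hp
        rcases (hSβ p hp).lt_or_eq with h | h
        · exact hn1 p (Finset.mem_filter.2 ⟨hp, h⟩)
        · rw [h]
          exact hn2 p.2 (Finset.mem_image.2 ⟨p, Finset.mem_filter.2 ⟨hp, h⟩, rfl⟩)
  rcases S.eq_empty_or_nonempty with h | h
  · rw [h]; exact hempty
  · obtain ⟨p0, hp0, hmax⟩ := Finset.exists_max_image _ Prod.fst h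
    exact key p0.1 S hS hmax

end Pool.Agent.Helper467_Sch
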