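import Pool.Agent.Helper467_Sch.Rec

/-!
The selection properties, and the set obtained from the recursion.
-/

set_option autoImplicit false

namespace Pool.Agent.Helper467_Sch

open Set Filter Cardinal Pool.Agent.H752R3 Pool.Agent.H381R3.LP

/-- The set `X`, as a subspace of `Y`, is Menger. -/
def IsMenger {Y : Type} [TopologicalSpace Y] (X : Set Y) : Prop :=
  ∀ U : ℕ → Set (Set Y), (∀ n, (∀ u ∈ U n, IsOpen u) ∧ X ⊆ ⋃₀ U n) →
    ∃ F : ℕ → Set (Set Y), (∀ n, F n ⊆ U n ∧ (F n).Finite) ∧ X ⊆ ⋃ n, ⋃₀ F n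

/-- The set `X`, as a subspace of `Y`, is Scheepers. -/
def IsScheepers {Y : Type} [TopologicalSpace Y] (X : Set Y) : Prop :=
  ∀ U : ℕ → Set (Set Y), (∀ n, (∀ u ∈ U n, IsOpen u) ∧ X ⊆ ⋃₀ U n) →
    ∃ F : ℕ → Set (Set Y), (∀ n, F n ⊆ U n ∧ (F n).Finite) ∧
      ∀ G : Set Y, G.Finite → G ⊆ X → ∃ n, G ⊆ ⋃₀ F n

/-- The set `X`, as a subspace of `Y`, is Menger along the filter `p` on `ℕ`: the finite subfamilies
can be chosen so that every point is covered by the `n`-th one for `p`-many `n`. -/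
def IsMengerAlong {Y : Type} [TopologicalSpace Y] (p : Filter ℕ) (X : Set Y) : Prop :=
  ∀ U : ℕ → Set (Set Y), (∀ n, (∀ u ∈ U n, IsOpen u) ∧ X ⊆ ⋃₀ U n) →
    ∃ F : ℕ → Set (Set Y), (∀ n, F n ⊆ U n ∧ (F n).Finite) ∧
      ∀ x ∈ X, ∀ᶠ n in p, x ∈ ⋃₀ F n

theorem IsMengerAlong.isScheepers {Y : Type} [TopologicalSpace Y] {p : Filter ℕ} [p.NeBot]
    {X : Set Y} (h : IsMengerAlong p X) : IsScheepers X := by
  intro U hU
  obtain ⟨F, hF1, hF2⟩ := h U hU
  refine ⟨F, hF1, fun G hG hGX => ?_⟩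
  have h1 : ∀ᶠ n in p, ∀ x ∈ G, x ∈ ⋃₀ F n :=
    (Filter.eventually_all_finite hG).2 fun x hx => hF2 x (hGX hx)
  obtain ⟨n, hn⟩ := h1.exists
  exact ⟨n, hn⟩

/-- The set of reals: the finitely supported points and the two points of every stage. -/
def XX {K : Type} (e : K → ℕ → ℕ) (s : K → St) : Set (ℕ → Bool) :=
  {z | FinSupp z} ∪ (range (fun β => (s β).2) ∪ range (tw e s))

/-- The filter generated by the sets `Tr e s {(β, γ)}`, `γ ≤ β`, and the cofinite sets. -/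
def PF {K : Type} [LinearOrder K] (e : K → ℕ → ℕ) (s : K → St) : Filter ℕ where
  sets := {A | ∃ (S : Finset (K × K)) (k : ℕ), (∀ p ∈ S, p.2 ≤ p.1) ∧
    ∀ n, k ≤ n → n ∈ Tr e s S → n ∈ A}
  univ_sets := ⟨∅, 0, fun p hp => absurd hp (Finset.notMem_empty p), fun _ _ _ => trivial⟩
  sets_of_superset := by
    rintro A B ⟨S, k, h1, h2⟩ hAB
    exact ⟨S, k, h1, fun n hn hnS => hAB (h2 n hn hnS)⟩
  inter_sets := by
    classical
    rintro A B ⟨S, k, h1, h2⟩ ⟨S', k', h1', h2'⟩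
    refine ⟨S ∪ S', max k k', fun p hp => ?_, fun n hn hnS => ⟨?_, ?_⟩⟩
    · rcases Finset.mem_union.1 hp with h | h
      · exact h1 p h
      · exact h1' p h
    · exact h2 n ((le_max_left _ _).trans hn) fun p hp => hnS p (Finset.mem_union_left _ hp)
    · exact h2' n ((le_max_right _ _).trans hn) fun p hp => hnS p (Finset.mem_union_right _ hp)

theorem mem_PF {K : Type} [LinearOrder K] {e : K → ℕ → ℕ} {s : K → St} {A : Set ℕ} :
    A ∈ PF e s ↔ ∃ (S : Finset (K × K)) (k : ℕ), (∀ p ∈ S, p.2 ≤ p.1) ∧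
      ∀ n, k ≤ n → n ∈ Tr e s S → n ∈ A := Iff.rfl

theorem PF_le_cofinite {K : Type} [LinearOrder K] (e : K → ℕ → ℕ) (s : K → St) :
    PF e s ≤ cofinite := by
  intro A hA
  rw [mem_cofinite] at hA
  obtain ⟨k, hk⟩ := hA.bddAbove
  refine mem_PF.2 ⟨∅, k + 1, fun p hp => absurd hp (Finset.notMem_empty p), fun n hn _ => ?_⟩
  by_contra hcon
  have := hk hcon
  omega

theorem PF_neBot {κ : Cardinal.{0}} {e : KO κ → ℕ → ℕ} {s : KO κ → St}
    (hs : ∀ β, Cond e β s (s β)) : (PF e s).NeBot := by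
  rw [Filter.neBot_iff]
  intro h
  have h1 : (∅ : Set ℕ) ∈ PF e s := by rw [h]; exact mem_bot
  obtain ⟨S, k, h2, h3⟩ := mem_PF.1 h1
  obtain ⟨n, hn1, hn2⟩ := (tr_infinite hs S h2).exists_gt k
  exact h3 n hn2.le hn1

theorem extB_restrict (r : ℕ) (z : ℕ → Bool) {t : ℕ} (ht : t < r) :
    extB r (fun i : Fin r => z i) t = z t := by simp [extB, ht]

/-- **The set is Menger along the filter.** -/
theorem isMengerAlong_XX {κ : Cardinal.{0}} (hr : κ.IsRegular) (h0 : ℵ₀ < κ)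
    {e : KO κ → ℕ → ℕ} {s : KO κ → St} (he : ∀ a, Nice (e a))
    (hdom : ∀ g : ℕ → ℕ, ∃ a, ∀ n, g n ≤ e a n) :
    IsMengerAlong (PF e s) (XX e s) := by
  classical
  intro U hU
  have hfin : ∀ (r : ℕ) (w : Fin r → Bool), extB r w ∈ XX e s := fun r w =>
    Or.inl (finSupp_extB r w)
  -- the neighbourhoods of the finitely supported points
  have h1 : ∀ (n r : ℕ) (w : Fin r → Bool), ∃ u ∈ U n, ∃ L : ℕ, ∀ z : ℕ → Bool,
      (∀ t < L, z t = extB r w t) → z ∈ u := by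
    intro n r w
    obtain ⟨u, hu, hwu⟩ := (hU n).2 (hfin r w)
    refine ⟨u, hu, ?_⟩
    have huo := (hU n).1 u hu
    rw [isOpen_pi_iff] at huo
    obtain ⟨I, v, hv, hsub⟩ := huo _ hwu
    refine ⟨I.sup id + 1, fun z hz => hsub ?_⟩
    intro i hi
    have hiL : i < I.sup id + 1 := Nat.lt_succ_of_le (Finset.le_sup (f := id) hi)
    rw [hz i hiL]
    exact (hv i hi).2
  choose u hu L hL using h1
  let δ : ℕ → ℕ := fun r => ∑ i ∈ Finset.range (r + 1),
    Finset.univ.sup (fun w : Fin i → Bool => ∑ n ∈ Finset.range (i + 1), L n i w)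
  obtain ⟨a, ha⟩ := hdom δ
  have hδ : ∀ (n r : ℕ) (w : Fin r → Bool), n ≤ r → L n r w ≤ δ r := by
    intro n r w hn
    have h2 : L n r w ≤ ∑ n ∈ Finset.range (r + 1), L n r w :=
      Finset.single_le_sum (f := fun n => L n r w) (fun _ _ => Nat.zero_le _)
        (Finset.mem_range.2 (by omega))
    have h3 : (∑ n ∈ Finset.range (r + 1), L n r w) ≤
        Finset.univ.sup (fun w : Fin r → Bool => ∑ n ∈ Finset.range (r + 1), L n r w) :=
      Finset.le_sup (f := fun w : Fin r → Bool => ∑ n ∈ Finset.range (r + 1), L n r w)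
        (Finset.mem_univ w)
    have h4 : Finset.univ.sup (fun w : Fin r → Bool => ∑ n ∈ Finset.range (r + 1), L n r w) ≤
        δ r := by
      show _ ≤ ∑ i ∈ Finset.range (r + 1),
        Finset.univ.sup (fun w : Fin i → Bool => ∑ n ∈ Finset.range (i + 1), L n i w)
      exact Finset.single_le_sum (f := fun i => Finset.univ.sup
        (fun w : Fin i → Bool => ∑ n ∈ Finset.range (i + 1), L n i w))
        (fun _ _ => Nat.zero_le _) (Finset.mem_range.2 (by omega))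
    exact h2.trans (h3.trans h4)
  let G : ℕ → Set (Set (ℕ → Bool)) := fun n =>
    ⋃ r ∈ Finset.range ((e a)^[2 * n] n + 1), range fun w : Fin r → Bool => u n r w
  have hG1 : ∀ n, G n ⊆ U n := by
    intro n v hv
    obtain ⟨r, -, w, rfl⟩ := mem_iUnion₂.1 hv
    exact hu n r w
  have hG2 : ∀ n, (G n).Finite := by
    intro n
    apply Set.Finite.biUnion (Finset.finite_toSet _)
    intro r _
    exact Set.finite_range _
  have hG3 : ∀ n z, Acc (e a) z n → z ∈ ⋃₀ G n := by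
    rintro n z ⟨r, hr1, hr2, hr3⟩
    refine ⟨u n r fun i => z i, mem_iUnion₂.2 ⟨r, Finset.mem_range.2 (by omega), _, rfl⟩, ?_⟩
    apply hL
    intro t ht
    have ht' : t < e a r := lt_of_lt_of_le ht ((hδ n r _ hr1).trans (ha r))
    by_cases htr : t < r
    · rw [extB_restrict r z htr]
    · rw [hr3 t (by omega) ht']
      simp [extB, htr]
  -- countable subcovers
  have h2 : ∀ n, ∃ v : ℕ → Set (ℕ → Bool), (∀ k, v k ∈ U n) ∧ XX e s ⊆ ⋃ k, v k := by
    intro n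
    obtain ⟨T, hT1, hT2, hT3⟩ := TopologicalSpace.isOpen_sUnion_countable (U n) (hU n).1
    have hTne : T.Nonempty := by
      have h3 : (fun _ => false : ℕ → Bool) ∈ ⋃₀ T := by
        rw [hT3]
        exact (hU n).2 (Or.inl ⟨0, fun _ _ => rfl⟩)
      obtain ⟨t, ht, -⟩ := h3
      exact ⟨t, ht⟩
    obtain ⟨v, hv⟩ := hT1.exists_eq_range hTne
    refine ⟨v, fun k => hT2 (by rw [hv]; exact ⟨k, rfl⟩), ?_⟩
    refine (hU n).2.trans ?_
    rw [← hT3, hv, sUnion_range]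
  choose v hv1 hv2 using h2
  have h3 : ∀ z ∈ XX e s, ∃ f : ℕ → ℕ, ∀ n, z ∈ v n (f n) := by
    intro z hz
    have : ∀ n, ∃ k, z ∈ v n k := fun n => mem_iUnion.1 (hv2 n hz)
    choose f hf using this
    exact ⟨f, hf⟩
  -- the early points
  let pt : (Set.Iio a × Bool) → ℕ → Bool := fun q =>
    if q.2 then (s q.1.1).2 else tw e s q.1.1
  have hpt : ∀ q, pt q ∈ XX e s := by
    rintro ⟨b, i⟩
    cases i
    · exact Or.inr (Or.inr ⟨b.1, by simp [pt]⟩)
    · exact Or.inr (Or.inl ⟨b.1, by simp [pt]⟩)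
  have h4 : ∀ q, ∃ γ, ∀ n, ∃ k ≤ e γ n, pt q ∈ v n k := by
    intro q
    obtain ⟨f, hf⟩ := h3 _ (hpt q)
    obtain ⟨γ, hγ⟩ := hdom f
    exact ⟨γ, fun n => ⟨f n, hγ n, hf n⟩⟩
  choose γ hγ using h4
  obtain ⟨b, hb⟩ := exists_above hr h0 (ι := (Set.Iio a × Bool)) (by
    rw [Cardinal.mk_prod, Cardinal.lift_id, Cardinal.lift_id]
    exact Cardinal.mul_lt_of_lt h0.le (mk_Iio_KO a) ((Cardinal.mk_lt_aleph0).trans h0)) γ
  let H : ℕ → Set (Set (ℕ → Bool)) := fun n => (v n) '' (Set.Iic ((s b).1 n))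
  have hH1 : ∀ n, H n ⊆ U n := by
    rintro n _ ⟨k, -, rfl⟩
    exact hv1 n k
  have hH2 : ∀ n, (H n).Finite := fun n => (Set.finite_Iic _).image _
  refine ⟨fun n => G n ∪ H n, fun n => ⟨union_subset (hG1 n) (hH1 n), (hG2 n).union (hH2 n)⟩, ?_⟩
  intro z hz
  have hleft : ∀ n, z ∈ ⋃₀ G n → z ∈ ⋃₀ (G n ∪ H n) := fun n h => by
    rw [sUnion_union]; exact Or.inl h
  have hright : ∀ n, z ∈ ⋃₀ H n → z ∈ ⋃₀ (G n ∪ H n) := fun n h => by
    rw [sUnion_union]; exact Or.inr h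
  rcases hz with hz | hz
  · -- finitely supported points
    obtain ⟨k, hk⟩ := hz
    refine mem_PF.2 ⟨∅, k, fun p hp => absurd hp (Finset.notMem_empty p), fun n hn _ => ?_⟩
    apply hleft
    apply hG3
    exact ⟨n, le_rfl, (he a).le_iterate _ _, fun t ht _ => hk t (hn.trans ht)⟩
  · -- the points of the stages
    have key : ∀ β, (z = (s β).2 ∨ z = tw e s β) → ∀ᶠ n in PF e s, z ∈ ⋃₀ (G n ∪ H n) := by
      intro β hβ
      by_cases hβa : β < a
      · obtain ⟨q, hq⟩ : ∃ q : Set.Iio a × Bool, pt q = z := by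
          rcases hβ with h | h
          · exact ⟨(⟨β, hβa⟩, true), by simp [pt, h]⟩
          · exact ⟨(⟨β, hβa⟩, false), by simp [pt, h]⟩
        refine mem_PF.2 ⟨{(b, γ q)}, 0, fun p hp => ?_, fun n _ hn => ?_⟩
        · rw [Finset.mem_singleton] at hp
          subst hp
          exact (hb q).le
        · apply hright
          have h5 := (hn _ (Finset.mem_singleton_self _)).1
          obtain ⟨k, hk1, hk2⟩ := hγ q n
          rw [hq] at hk2
          exact ⟨v n k, ⟨k, hk1.trans h5, rfl⟩, hk2⟩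
      · refine mem_PF.2 ⟨{(β, a)}, 0, fun p hp => ?_, fun n _ hn => ?_⟩
        · rw [Finset.mem_singleton] at hp
          subst hp
          exact not_lt.1 hβa
        · apply hleft
          apply hG3
          have h5 := hn _ (Finset.mem_singleton_self _)
          rcases hβ with h | h
          · rw [h]; exact h5.2.1
          · rw [h]; exact h5.2.2
    rcases hz with ⟨β, rfl⟩ | ⟨β, rfl⟩
    · exact key β (Or.inl rfl)
    · exact key β (Or.inr rfl)

end Pool.Agent.Helper467_Sch
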